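import Pool.Agent.Y328.CC.Act2

/-!
# CC-VZ: a torsion-free group with a cyclic subgroup of finite index is cyclic
-/

set_option autoImplicit false

universe u

namespace Pool.Agent.Y151.CC

/-- the multiplicative version -/
theorem vz_mul {G : Type u} [Group G] (htf : ∀ x : G, x ≠ 1 → ∀ n : ℕ, 0 < n → x ^ n ≠ 1)
    (c : G) (hc : (Subgroup.zpowers c).index ≠ 0) : IsCyclic G := by
  classical
  have htz : ∀ (x : G) (n : ℤ), x ^ n = 1 → n ≠ 0 → x = 1 := by
    intro x n hx hn
    by_contra hx1
    apply htf x hx1 n.natAbs (Int.natAbs_pos.mpr hn)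
    rcases Int.natAbs_eq n with h | h
    · rw [h, zpow_natCast] at hx
      exact hx
    · rw [h, zpow_neg, zpow_natCast, inv_eq_one] at hx
      exact hx
  have hfi0 : (Subgroup.zpowers c).FiniteIndex := ⟨hc⟩
  let N : Subgroup G := (Subgroup.zpowers c).normalCore
  have hfi : N.FiniteIndex := (Subgroup.zpowers c).finiteIndex_normalCore
  have hN : N.Normal := Subgroup.normalCore_normal _
  have hle : N ≤ Subgroup.zpowers c := Subgroup.normalCore_le _
  have hcyc : IsCyclic N :=
    isCyclic_of_injective (Subgroup.inclusion hle) (Subgroup.inclusion_injective hle)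
  obtain ⟨d, hd⟩ := (Subgroup.isCyclic_iff_exists_zpowers_eq_top N).mp hcyc
  have hdN : d ∈ N := by rw [← hd]; exact Subgroup.mem_zpowers d
  have he : 0 < N.index := Nat.pos_of_ne_zero hfi.index_ne_zero
  have hpow : ∀ g : G, g ^ N.index ∈ N := fun g => N.pow_index_mem g
  by_cases hd1 : d = 1
  · -- the group is trivial
    have hsub : ∀ g : G, g = 1 := by
      intro g
      by_contra hg
      apply htf g hg _ he
      have h0 : N = ⊥ := by rw [← hd, hd1, Subgroup.zpowers_one_eq_bot]
      have h1 : ∀ x : G, x ∈ N → x = 1 := by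
        intro x hx
        rw [h0, Subgroup.mem_bot] at hx
        exact hx
      exact h1 _ (hpow g)
    have : Subsingleton G := ⟨fun a b => by rw [hsub a, hsub b]⟩
    infer_instance
  have hdz : ∀ n : ℤ, d ^ n = 1 → n = 0 := by
    intro n hn
    by_contra h
    exact hd1 (htz d n hn h)
  have hcomm : ∀ g : G, g * d * g⁻¹ = d := by
    intro g
    have h1 : g * d * g⁻¹ ∈ Subgroup.zpowers d := by
      rw [hd]
      exact hN.conj_mem d hdN g
    have h2 : g⁻¹ * d * g ∈ Subgroup.zpowers d := by
      rw [hd]
      have h := hN.conj_mem d hdN g⁻¹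
      rwa [inv_inv] at h
    obtain ⟨a, ha⟩ := Subgroup.mem_zpowers_iff.mp h1
    obtain ⟨b, hb⟩ := Subgroup.mem_zpowers_iff.mp h2
    have hconj : ∀ n : ℤ, g * d ^ n * g⁻¹ = (d ^ a) ^ n := by
      intro n
      rw [ha, conj_zpow]
    have h3 : d ^ (a * b) = d := by
      have h := hconj b
      rw [hb, ← zpow_mul] at h
      rw [← h]
      group
    have h4 : a * b - 1 = 0 := by
      apply hdz
      rw [zpow_sub, h3, zpow_one, mul_inv_cancel]
    have h5 : a * b = 1 := by omega
    rcases Int.eq_one_or_neg_one_of_mul_eq_one h5 with h6 | h6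
    · rw [← ha, h6, zpow_one]
    · exfalso
      obtain ⟨j, hj⟩ := Subgroup.mem_zpowers_iff.mp (by rw [hd]; exact hpow g :
        g ^ N.index ∈ Subgroup.zpowers d)
      have h7 : g * g ^ N.index * g⁻¹ = g ^ N.index := by
        rw [← pow_succ', pow_succ, mul_inv_cancel_right]
      rw [← hj, hconj, h6, ← zpow_mul] at h7
      have h8 : (-1 * j) - j = 0 := by
        apply hdz
        rw [zpow_sub, h7, mul_inv_cancel]
      have h9 : j = 0 := by omega
      rw [h9, zpow_zero] at hj
      have h10 : g = 1 := by
        by_contra hg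
        exact htf g hg _ he hj.symm
      rw [h10, h6, one_mul, inv_one, mul_one, zpow_neg, zpow_one] at ha
      have h11 : d ^ (2 : ℤ) = 1 := by
        rw [zpow_two]
        nth_rewrite 1 [← ha]
        rw [inv_mul_cancel]
      exact absurd (hdz 2 h11) (by norm_num)
  have hcen : N ≤ Subgroup.center G := by
    rw [← hd, Subgroup.zpowers_le, Subgroup.mem_center_iff]
    intro g
    have h := hcomm g
    rw [mul_inv_eq_iff_eq_mul] at h
    exact h
  have hfic : (Subgroup.center G).FiniteIndex := Subgroup.finiteIndex_of_le hcen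
  have hcom : ∀ a b : G, a * b = b * a := by
    intro a b
    have h1 : MonoidHom.transferCenterPow G (a * b) = MonoidHom.transferCenterPow G (b * a) := by
      rw [map_mul, map_mul]
      apply Subtype.ext
      exact (Subgroup.mem_center_iff.mp (MonoidHom.transferCenterPow G b).2 _)
    have h2 : MonoidHom.transferCenterPow G (a * b * (b * a)⁻¹) = 1 := by
      rw [map_mul, map_inv, h1, mul_inv_cancel]
    have h3 : (a * b * (b * a)⁻¹) ^ (Subgroup.center G).index = 1 := by
      have h := congrArg Subtype.val h2
      rwa [MonoidHom.transferCenterPow_apply] at h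
    have h4 : a * b * (b * a)⁻¹ = 1 := by
      by_contra h
      exact htf _ h _ (Nat.pos_of_ne_zero hfic.index_ne_zero) h3
    exact mul_inv_eq_one.mp h4
  let f : G →* N :=
    { toFun := fun x => ⟨x ^ N.index, hpow x⟩
      map_one' := Subtype.ext (one_pow _)
      map_mul' := fun a b => Subtype.ext ((show Commute a b from hcom a b).mul_pow _) }
  refine isCyclic_of_injective f ?_
  rw [injective_iff_map_eq_one]
  intro x hx
  by_contra h
  exact htf x h _ he (congrArg Subtype.val hx)

/-- VZ -/
theorem t_VZ : Pool.Agent.Y328.CC.S_VZ.{u} := by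
  intro G _ htf c hc
  have h1 : IsCyclic (Multiplicative G) := by
    refine vz_mul (G := Multiplicative G) ?_ (Multiplicative.ofAdd c) ?_
    · intro x hx n hn h
      exact htf x.toAdd (fun h0 => hx (by
        rw [← ofAdd_toAdd x, h0, ofAdd_zero])) n hn (by
        have h2 := congrArg Multiplicative.toAdd h
        rwa [toAdd_pow, toAdd_one] at h2)
    · have h2 : Subgroup.zpowers (Multiplicative.ofAdd c) =
          AddSubgroup.toSubgroup (AddSubgroup.zmultiples c) := by
        ext x
        rfl
      rw [h2, AddSubgroup.index_toSubgroup]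
      exact hc
  exact isCyclic_multiplicative_iff.mp h1

end Pool.Agent.Y151.CC
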